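import Pool.Agent.H88.LS.Stm

/-!
# The residence sum
-/

set_option autoImplicit false

namespace Pool.Agent.H35.LS

open Pool.Agent.H88.LS Finset Classical

theorem ex_spec (hub : ∀ m, ∃ n, m ≤ s n) (p : ℕ) : p ≤ s (ex p) :=
  Nat.sInf_mem (s := {n | p ≤ s n}) (hub p)

theorem lt_of_lt_ex {p n : ℕ} (h : n < ex p) : s n < p := by
  by_contra hc
  exact absurd (Nat.sInf_le (s := {n | p ≤ s n}) (not_lt.1 hc)) (not_le.2 h)

theorem ex_mono (hub : ∀ m, ∃ n, m ≤ s n) {p q : ℕ} (h : p ≤ q) : ex p ≤ ex q :=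
  Nat.sInf_le (s := {n | p ≤ s n}) (h.trans (ex_spec hub q))

theorem le_ex (hub : ∀ m, ∃ n, m ≤ s n) (hle : ∀ n, s n ≤ n) (p : ℕ) : p ≤ ex p :=
  (ex_spec hub p).trans (hle _)

/-- the telescoping sum -/
theorem tele (hb : SBase) (a b : ℕ) (hab : a ≤ b) :
    (∑ n ∈ Ico a b, ((pw (s n) (n + 1)).card : ℤ)) = (s b : ℤ) - s a := by
  induction b, hab using Nat.le_induction with
  | base => simp
  | succ b hab ih =>
    rw [Finset.sum_Ico_succ_top hab, ih, hb.1 b]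
    push_cast
    ring

theorem sum_le (hb : SBase) (x : ℕ) :
    (∑ p ∈ pw x (2 * x), R p) ≤ (ex (2 * x) : ℤ) - s x := by
  obtain ⟨h1, h2, h3, h4⟩ := hb
  have hx : x ≤ ex (2 * x) := by
    have := le_ex h4 h2 (2 * x)
    omega
  have hR : ∀ p ∈ pw x (2 * x), R p =
      ∑ n ∈ Ico x (ex (2 * x)), (if s n < p ∧ p ≤ n + 1 then (1 : ℤ) else 0) := by
    intro p hp
    simp only [pw, mem_filter, mem_Ioc] at hp
    obtain ⟨⟨hp1, hp2⟩, hp3⟩ := hp
    have hex := le_ex h4 h2 p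
    have hex2 := ex_mono h4 hp2
    have h5 : (Ico x (ex (2 * x))).filter (fun n => s n < p ∧ p ≤ n + 1) =
        Ico (p - 1) (ex p) := by
      ext n
      simp only [mem_filter, mem_Ico]
      constructor
      · rintro ⟨⟨ha, hb⟩, hc, hd⟩
        refine ⟨by omega, ?_⟩
        by_contra hcon
        have := (ex_spec h4 p).trans (h3 (not_lt.1 hcon))
        omega
      · rintro ⟨ha, hb⟩
        exact ⟨⟨by omega, by omega⟩, lt_of_lt_ex hb, by omega⟩
    rw [Finset.sum_ite, Finset.sum_const_zero, add_zero, Finset.sum_const, h5, Nat.card_Ico, R]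
    simp only [nsmul_eq_mul, mul_one]
    have : p ≤ ex p + 1 := by omega
    push_cast [Nat.cast_sub (show p - 1 ≤ ex p by omega), Nat.cast_sub (show 1 ≤ p from hp3.one_le)]
    ring
  rw [Finset.sum_congr rfl hR, Finset.sum_comm]
  calc (∑ n ∈ Ico x (ex (2 * x)), ∑ p ∈ pw x (2 * x),
        (if s n < p ∧ p ≤ n + 1 then (1 : ℤ) else 0))
      ≤ ∑ n ∈ Ico x (ex (2 * x)), ((pw (s n) (n + 1)).card : ℤ) := by
        refine Finset.sum_le_sum fun n _ => ?_
        rw [Finset.sum_ite, Finset.sum_const_zero, add_zero, Finset.sum_const]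
        simp only [nsmul_eq_mul, mul_one]
        norm_cast
        refine Finset.card_le_card fun p hp => ?_
        simp only [pw, mem_filter, mem_Ioc] at hp ⊢
        exact ⟨hp.2, hp.1.2⟩
    _ = (s (ex (2 * x)) : ℤ) - s x := tele ⟨h1, h2, h3, h4⟩ _ _ hx
    _ ≤ (ex (2 * x) : ℤ) - s x := by
        have := h2 (ex (2 * x))
        omega

/-- `n - s n` is at most `e n + K` -/
theorem small (hb : SBase) (ht : STwo) (e : ℝ) (he : 0 < e) :
    ∃ (K : ℝ) (n₀ : ℕ), 0 ≤ K ∧ ∀ n : ℕ, n₀ ≤ n → (n : ℝ) - s n ≤ e * n + K := by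
  obtain ⟨x₀, hx₀⟩ := ht e he
  obtain ⟨h1, h2, h3, h4⟩ := hb
  obtain ⟨n₀, hn₀⟩ := h4 x₀
  have hD0 : (0 : ℝ) ≤ (n₀ : ℝ) - s n₀ := by
    have := h2 n₀
    have : (s n₀ : ℝ) ≤ n₀ := by exact_mod_cast this
    linarith
  refine ⟨1 + ((n₀ : ℝ) - s n₀), n₀, by linarith, ?_⟩
  intro n hn
  induction n, hn using Nat.le_induction with
  | base =>
    have : 0 ≤ e * (n₀ : ℝ) := by positivity
    linarith
  | succ n hn ih =>
    have h5 := h1 n
    have h6 : (s (n + 1) : ℝ) = s n + ((pw (s n) (n + 1)).card : ℝ) := by exact_mod_cast h5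
    have h7 : (s n : ℝ) ≤ n := by exact_mod_cast h2 n
    have h8 : x₀ ≤ s n := hn₀.trans (h3 hn)
    push_cast
    by_cases hc : e * n ≤ (n : ℝ) - s n
    · have h9 : 2 ≤ (pw (s n) (n + 1)).card := by
        refine hx₀ (s n) (n + 1) h8 ?_
        have : e * (s n : ℝ) ≤ e * n := mul_le_mul_of_nonneg_left h7 he.le
        push_cast
        linarith
      have h10 : (2 : ℝ) ≤ ((pw (s n) (n + 1)).card : ℝ) := by exact_mod_cast h9
      linarith
    · push Not at hc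
      have h10 : (0 : ℝ) ≤ ((pw (s n) (n + 1)).card : ℝ) := by positivity
      linarith

theorem ssum : SBase → STwo → SSum := by
  intro hb ht ε hε
  set e : ℝ := min (ε / 12) (1 / 2) with he
  have he0 : 0 < e := by positivity
  have he1 : e ≤ 1 / 2 := min_le_right _ _
  have he2 : e ≤ ε / 12 := min_le_left _ _
  obtain ⟨K, n₀, hK, hsm⟩ := small hb ht e he0
  obtain ⟨x₁, hx₁⟩ := exists_nat_gt ((3 * K + 1) / (ε / 2))
  refine ⟨max (n₀ + 1) x₁, fun x hx => ?_⟩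
  have hxn : n₀ + 1 ≤ x := (le_max_left _ _).trans hx
  have hxx : x₁ ≤ x := (le_max_right _ _).trans hx
  have hxx' : (x₁ : ℝ) ≤ x := by exact_mod_cast hxx
  have hbig : 3 * K + 1 ≤ ε / 2 * x := by
    have h1 := hx₁.le.trans hxx'
    rw [div_le_iff₀ (by positivity)] at h1
    linarith
  have h1 := sum_le hb x
  have h2 : (∑ p ∈ pw x (2 * x), (R p : ℝ)) ≤ (ex (2 * x) : ℝ) - s x := by exact_mod_cast h1
  have hE := le_ex hb.2.2.2 hb.2.1 (2 * x)
  obtain ⟨m, hm⟩ : ∃ m, ex (2 * x) = m + 1 := ⟨ex (2 * x) - 1, by omega⟩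
  have h3 : s m < 2 * x := lt_of_lt_ex (by omega)
  have h3' : (s m : ℝ) ≤ 2 * x := by exact_mod_cast h3.le
  have h4 := hsm m (by omega)
  have h5 := hsm x (by omega)
  have h6 : (1 - e) * m ≤ 2 * x + K := by linarith
  have h7 : (m : ℝ) ≤ (1 + 2 * e) * (2 * x + K) := by
    have h8 : (1 + 2 * e) * ((1 - e) * m) ≤ (1 + 2 * e) * (2 * x + K) :=
      mul_le_mul_of_nonneg_left h6 (by positivity)
    have h9 : (m : ℝ) ≤ (1 + 2 * e) * ((1 - e) * m) := by
      have h10 : (0 : ℝ) ≤ e * (1 - 2 * e) * m := by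
        have : 0 ≤ 1 - 2 * e := by linarith
        positivity
      nlinarith
    linarith
  have h8 : (1 + 2 * e) * (2 * x + K) ≤ 2 * x + 4 * (ε / 12) * x + 2 * K := by
    have hx0 : (0 : ℝ) ≤ x := Nat.cast_nonneg _
    have h9 : e * x ≤ ε / 12 * x := mul_le_mul_of_nonneg_right he2 hx0
    have h10 : e * K ≤ 1 / 2 * K := mul_le_mul_of_nonneg_right he1 hK
    nlinarith
  have h9 : e * (x : ℝ) ≤ ε / 12 * x := mul_le_mul_of_nonneg_right he2 (Nat.cast_nonneg _)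
  rw [hm] at h2
  push_cast at h2
  have hx0 : (0 : ℝ) ≤ ε * x := by positivity
  linarith

end Pool.Agent.H35.LS
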